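import Pool.Agent.U691.CE3.HW3
import Pool.Agent.U691.Shang.Num

/-!
# Generating functions: the product formula for the character of the exterior algebra
-/

set_option autoImplicit false
set_option linter.unusedSectionVars false

namespace Pool.Agent.U691.CE3

open Pool.Agent.U691.CE Pool.Agent.U691.Shang

variable {F : Type} [Field F] [CharZero F] {L : Type} [LieRing L] [LieAlgebra F L] {I : Type}
  [LinearOrder I]

theorem three_pow_zero (n : ℕ) : (3 : Z18) ^ (18 + n) = 0 := by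
  rw [pow_add]
  have : (3 : Z18) ^ 18 = 0 := by
    have h : ((3 ^ 18 : ℕ) : Z18) = 0 := ZMod.natCast_self MM
    exact_mod_cast h
  rw [this, zero_mul]

theorem coeff_et (μ ν : ℤ × ℤ) : (et μ).coeff ν = if μ = ν then 1 else 0 := by
  unfold et
  classical
  rw [AddMonoidAlgebra.coeff_single, Finsupp.single_apply]

theorem mt_eq (i j : ℤ) (f : T18) : Shang.mt (i, j) f = f.coeff (i, j)
    - (f.coeff (i + 1, j) + f.coeff (i, j + 1)) + (f.coeff (i + 2, j + 1) + f.coeff (i + 1, j + 2))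
    - f.coeff (i + 2, j + 2) := by
  have h1 : (1 - et (-1, 0)) * (1 - et (0, -1)) * (1 - et (-1, -1)) =
      (1 - et (-1, 0) - et (0, -1) + et (-2, -1) + et (-1, -2) - et (-2, -2) : T18) := by
    have e1 : et (-1, 0) * et (0, -1) = et (-1, -1) := by rw [et_mul]; rfl
    have e2 : et (-1, 0) * et (-1, -1) = et (-2, -1) := by rw [et_mul]; rfl
    have e3 : et (0, -1) * et (-1, -1) = et (-1, -2) := by rw [et_mul]; rfl
    have e4 : et (-1, -1) * et (-1, -1) = et (-2, -2) := by rw [et_mul]; rfl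
    linear_combination (1 - et (-1, -1)) * e1 - (-1 : T18) * e2 - (-1 : T18) * e3 - e4
  unfold Shang.mt
  rw [h1]
  simp only [mul_add, mul_sub, mul_one, AddMonoidAlgebra.coeff_add, AddMonoidAlgebra.coeff_sub,
    Finsupp.coe_add, Finsupp.coe_sub, Pi.add_apply, Pi.sub_apply]
  unfold et
  simp only [AddMonoidAlgebra.coeff_mul_single_apply, mul_one]
  simp only [Prod.neg_mk, neg_neg, Prod.mk_add_mk, neg_zero, add_zero]
  ring

namespace Dat3

variable (X : Dat3 F L I)

/-- the degree of a basis element as a natural number -/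
def dg (j : I) : ℕ := (X.deg j).toNat

theorem dg_cast (j : I) : (X.dg j : ℤ) = X.deg j := Int.toNat_of_nonneg (by
  have := X.pos j; omega)

/-- the product of all `1 - 3^(deg j) e^(wt j)` with `deg j ≤ 17` -/
noncomputable def Phi : T18 := ∏ j ∈ X.In 17, (1 - 3 ^ X.dg j * et (X.wa j, X.wb j))

theorem prod_term (s : Finset I) : ∏ j ∈ s, (-(3 ^ X.dg j * et (X.wa j, X.wb j))) =
    ((-1) ^ s.card * 3 ^ (∑ j ∈ s, X.dg j) : Z18) • et (∑ j ∈ s, X.wa j, ∑ j ∈ s, X.wb j) := by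
  classical
  induction s using Finset.induction_on with
  | empty =>
    simp only [Finset.prod_empty, Finset.card_empty, pow_zero, Finset.sum_empty, mul_one, one_smul]
    rfl
  | insert a s ha ih =>
    have h1 : et (X.wa a + ∑ j ∈ s, X.wa j, X.wb a + ∑ j ∈ s, X.wb j) =
      et (X.wa a, X.wb a) * et (∑ j ∈ s, X.wa j, ∑ j ∈ s, X.wb j) := by
      rw [et_mul]; rfl
    rw [Finset.prod_insert ha, ih, Finset.card_insert_of_notMem ha, Finset.sum_insert ha,
      Finset.sum_insert ha, Finset.sum_insert ha, h1, Algebra.smul_def, Algebra.smul_def]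
    simp only [map_mul, map_pow, map_neg, map_one, map_ofNat]
    ring

theorem Phi_coeff (a b : ℤ) : (X.Phi).coeff (a, b) =
    ∑ s ∈ (X.In 17).powerset with ∑ j ∈ s, X.wa j = a ∧ ∑ j ∈ s, X.wb j = b,
      (-1) ^ s.card * 3 ^ (∑ j ∈ s, X.dg j) := by
  unfold Phi
  simp only [sub_eq_add_neg]
  rw [Finset.prod_one_add, AddMonoidAlgebra.coeff_sum, Finsupp.coe_finsetSum, Finset.sum_apply,
    Finset.sum_filter]
  refine Finset.sum_congr rfl fun s _ => ?_
  rw [prod_term, AddMonoidAlgebra.coeff_smul_apply, coeff_et]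
  by_cases h : ∑ j ∈ s, X.wa j = a ∧ ∑ j ∈ s, X.wb j = b
  · rw [if_pos h, if_pos (by rw [h.1, h.2])]
    simp
  · rw [if_neg h, if_neg (by rw [Prod.mk.injEq]; exact h)]
    simp

theorem sum_dg (s : Finset I) : ((∑ j ∈ s, X.dg j : ℕ) : ℤ) = ∑ j ∈ s, X.deg j := by
  push_cast
  exact Finset.sum_congr rfl fun j _ => X.dg_cast j

theorem cnt_eq (k n : ℕ) (hn : n ≤ 17) (a b : ℤ) :
    X.cnt k n a b = ((X.In 17).powerset.filter fun s =>
      (∑ j ∈ s, X.dg j = n ∧ ∑ j ∈ s, X.wa j = a ∧ ∑ j ∈ s, X.wb j = b) ∧ s.card = k).card := by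
  unfold cnt
  apply Nat.subtype_card
  intro s
  rw [Finset.mem_filter, Finset.mem_powerset, gs_eq]
  have h2 := X.sum_dg s
  constructor
  · rintro ⟨_, ⟨h3, h4⟩, h5⟩
    refine ⟨h5, ?_, h4⟩
    rw [← h2, h3]
  · rintro ⟨h5, h3, h4⟩
    refine ⟨X.sub_In (by rw [h3]; omega), ⟨?_, h4⟩, h5⟩
    have : ((∑ j ∈ s, X.dg j : ℕ) : ℤ) = n := by rw [h2, h3]
    exact_mod_cast this

/-- the Euler characteristic in degree `n` and weight `(a, b)` -/
noncomputable def chi (n : ℕ) (a b : ℤ) : ℤ :=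
  ∑ s ∈ (X.In 17).powerset with ∑ j ∈ s, X.dg j = n ∧ ∑ j ∈ s, X.wa j = a ∧ ∑ j ∈ s, X.wb j = b,
    (-1) ^ s.card

theorem chi_eq (n : ℕ) (hn : n ≤ 17) (a b : ℤ) (m : ℕ) (hm : n < m) :
    ∑ k ∈ Finset.range m, (-1 : ℤ) ^ k * (X.cnt k n a b : ℤ) = X.chi n a b := by
  unfold chi
  rw [← Finset.sum_fiberwise_of_maps_to (g := Finset.card) (t := Finset.range m)]
  · refine Finset.sum_congr rfl fun k _ => ?_
    rw [X.cnt_eq k n hn a b, Finset.filter_filter, Finset.card_eq_sum_ones, Nat.cast_sum,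
      Finset.mul_sum]
    refine Finset.sum_congr rfl fun s hs => ?_
    rw [Finset.mem_filter] at hs
    rw [hs.2.2]
    simp
  · intro s hs
    rw [Finset.mem_filter] at hs
    rw [Finset.mem_range]
    refine lt_of_le_of_lt ?_ hm
    rw [← hs.2.1]
    have h1 := X.card_le s
    rw [← X.sum_dg] at h1
    exact_mod_cast h1

theorem Phi_coeff' (a b : ℤ) : (X.Phi).coeff (a, b) =
    ∑ n ∈ Finset.range 18, 3 ^ n * ((X.chi n a b : ℤ) : Z18) := by
  classical
  rw [Phi_coeff]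
  set P := (X.In 17).powerset.filter
    (fun s => ∑ j ∈ s, X.wa j = a ∧ ∑ j ∈ s, X.wb j = b) with hP
  have h1 : ∑ s ∈ P, (-1 : Z18) ^ s.card * 3 ^ (∑ j ∈ s, X.dg j) =
      ∑ s ∈ P.filter (fun s => ∑ j ∈ s, X.dg j < 18),
        (-1 : Z18) ^ s.card * 3 ^ (∑ j ∈ s, X.dg j) := by
    symm
    apply Finset.sum_subset (Finset.filter_subset _ _)
    intro s hs1 hs2
    rw [Finset.mem_filter, not_and, not_lt] at hs2
    obtain ⟨k, hk⟩ := Nat.exists_eq_add_of_le (hs2 hs1)
    rw [hk, three_pow_zero, mul_zero]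
  rw [h1, ← Finset.sum_fiberwise_of_maps_to (g := fun s => ∑ j ∈ s, X.dg j)
    (t := Finset.range 18)]
  · refine Finset.sum_congr rfl fun n hn => ?_
    rw [Finset.mem_range] at hn
    unfold chi
    rw [Int.cast_sum, Finset.mul_sum]
    apply Finset.sum_congr
    · ext s
      simp only [hP, Finset.mem_filter]
      constructor
      · rintro ⟨⟨⟨h1, h2⟩, h3⟩, h4⟩
        exact ⟨h1, h4, h2⟩
      · rintro ⟨h1, h4, h2⟩
        exact ⟨⟨⟨h1, h2⟩, by omega⟩, h4⟩
    · intro s hs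
      rw [Finset.mem_filter] at hs
      rw [hs.2.1]
      push_cast
      ring
  · intro s hs
    rw [Finset.mem_filter] at hs
    exact Finset.mem_range.2 hs.2

/-- the alternating sum of the dimensions of the spaces of highest weight vectors -/
noncomputable def eu (n : ℕ) (a b : ℤ) : ℤ :=
  X.chi n a b - (X.chi n (a + 1) b + X.chi n a (b + 1))
    + (X.chi n (a + 2) (b + 1) + X.chi n (a + 1) (b + 2)) - X.chi n (a + 2) (b + 2)

theorem mt_Phi (a b : ℤ) : Shang.mt (a, b) X.Phi =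
    ∑ n ∈ Finset.range 18, 3 ^ n * ((X.eu n a b : ℤ) : Z18) := by
  rw [mt_eq, Phi_coeff', Phi_coeff', Phi_coeff', Phi_coeff', Phi_coeff', Phi_coeff',
    ← Finset.sum_add_distrib, ← Finset.sum_add_distrib, ← Finset.sum_sub_distrib,
    ← Finset.sum_add_distrib, ← Finset.sum_sub_distrib]
  refine Finset.sum_congr rfl fun n _ => ?_
  unfold eu
  push_cast
  ring

theorem eu_zero (n : ℕ) (hn1 : 1 ≤ n) (hn : n ≤ 17) {a b : ℤ} (ha : 0 ≤ 2 * a - b)
    (hb : 0 ≤ 2 * b - a)
    (hyp : ∀ k : ℕ, 1 ≤ k → ∀ v ∈ X.V k n a b, Th X.R.e1 v = 0 → Th X.R.e2 v = 0 → d v = 0 →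
      v ∈ Bk F L k) : X.eu n a b = 0 := by
  have h := X.main_sum (n := n) (by exact_mod_cast hn1) ha hb hyp (n + 1) (by push_cast; omega)
  unfold eu
  rw [← X.chi_eq n hn _ _ (n + 1) (by omega), ← X.chi_eq n hn _ _ (n + 1) (by omega),
    ← X.chi_eq n hn _ _ (n + 1) (by omega), ← X.chi_eq n hn _ _ (n + 1) (by omega),
    ← X.chi_eq n hn _ _ (n + 1) (by omega), ← X.chi_eq n hn _ _ (n + 1) (by omega), ← h,
    ← Finset.sum_add_distrib, ← Finset.sum_add_distrib, ← Finset.sum_sub_distrib,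
    ← Finset.sum_add_distrib, ← Finset.sum_sub_distrib]
  refine Finset.sum_congr rfl fun k _ => ?_
  ring

/-- the Euler characteristic in degree zero -/
theorem chi_zero (a b : ℤ) : X.chi 0 a b = if a = 0 ∧ b = 0 then 1 else 0 := by
  rw [← X.chi_eq 0 (by norm_num) a b 1 (by norm_num)]
  rw [Finset.sum_range_one, pow_zero, one_mul]
  unfold cnt
  split_ifs with h
  · obtain ⟨rfl, rfl⟩ := h
    rw [Nat.card_eq_one_iff_unique.2]
    · rfl
    refine ⟨⟨?_⟩, ⟨⟨∅, by simp, ?_⟩⟩⟩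
    · rintro ⟨s, h1, _⟩ ⟨t, h2, _⟩
      rw [Finset.card_eq_zero] at h1 h2
      exact Subtype.ext (h1.trans h2.symm)
    · rw [gs_eq]
      simp
  · have : IsEmpty {s : Finset I // s.card = 0 ∧ gs X.c s = ![((0 : ℕ) : ℤ), a, b]} := by
      constructor
      rintro ⟨s, h1, h2⟩
      rw [gs_eq] at h2
      rw [Finset.card_eq_zero] at h1
      subst h1
      simp at h2
      exact h ⟨h2.1.symm, h2.2.symm⟩
    rw [Nat.card_of_isEmpty]
    rfl

/-- the number of basis elements of degree one of a given weight -/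
noncomputable def c1 (a b : ℤ) : ℕ := Nat.card {j : I // X.deg j = 1 ∧ X.wa j = a ∧ X.wb j = b}

theorem cnt_one (a b : ℤ) : X.cnt 1 1 a b = X.c1 a b := by
  unfold cnt c1
  symm
  apply Nat.card_eq_of_bijective (fun j : {j : I // X.deg j = 1 ∧ X.wa j = a ∧ X.wb j = b} =>
    (⟨{j.1}, by
      refine ⟨Finset.card_singleton _, ?_⟩
      rw [gs_eq, Finset.sum_singleton, Finset.sum_singleton, Finset.sum_singleton]
      exact j.2⟩ :
      {s : Finset I // s.card = 1 ∧ gs X.c s = ![(1 : ℤ), a, b]}))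
  constructor
  · intro j j' h
    have h1 := congrArg Subtype.val h
    exact Subtype.ext (Finset.singleton_injective h1)
  · rintro ⟨s, h1, h2⟩
    obtain ⟨j, rfl⟩ := Finset.card_eq_one.1 h1
    rw [gs_eq, Finset.sum_singleton, Finset.sum_singleton, Finset.sum_singleton] at h2
    exact ⟨⟨j, h2⟩, rfl⟩

theorem chi_one (a b : ℤ) : X.chi 1 a b = - (X.c1 a b : ℤ) := by
  rw [← X.chi_eq 1 (by norm_num) a b 2 (by norm_num)]
  rw [Finset.sum_range_succ, Finset.sum_range_one]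
  have h1 : X.cnt 0 1 a b = 0 := by
    unfold cnt
    have : IsEmpty {s : Finset I // s.card = 0 ∧ gs X.c s = ![(1 : ℤ), a, b]} := by
      constructor
      rintro ⟨s, h1, h2⟩
      rw [gs_eq] at h2
      rw [Finset.card_eq_zero] at h1
      subst h1
      simp at h2
    exact Nat.card_of_isEmpty
  have h2 := X.cnt_one a b
  push_cast
  rw [h1, h2]
  simp

end Dat3

end Pool.Agent.U691.CE3
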