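import Pool.Agent.U691.CE.SL2

/-!
# Elementary facts about representations of `sl₃` in characteristic zero
-/

set_option autoImplicit false
set_option linter.unusedSectionVars false
set_option linter.unusedSimpArgs false
set_option linter.style.haveILetI false

namespace Pool.Agent.U691.CE3

/-- An action of `sl₃` on `M`.  Here `e1, e2, e3 = E₁₂, E₂₃, E₁₃`, `f1, f2, f3 = E₂₁, E₃₂, E₃₁`,
and `A`, `B` are the fundamental coweights. -/
structure Sl3 (F : Type) [Field F] (M : Type) [AddCommGroup M] [Module F M] where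
  e1 : M →ₗ[F] M
  e2 : M →ₗ[F] M
  e3 : M →ₗ[F] M
  f1 : M →ₗ[F] M
  f2 : M →ₗ[F] M
  f3 : M →ₗ[F] M
  A : M →ₗ[F] M
  B : M →ₗ[F] M
  e2e1 : ∀ v, e2 (e1 v) = e1 (e2 v) - e3 v
  e3e1 : ∀ v, e3 (e1 v) = e1 (e3 v)
  e3e2 : ∀ v, e3 (e2 v) = e2 (e3 v)
  f1f2 : ∀ v, f1 (f2 v) = f2 (f1 v) - f3 v
  f1f3 : ∀ v, f1 (f3 v) = f3 (f1 v)
  f2f3 : ∀ v, f2 (f3 v) = f3 (f2 v)
  e1f1 : ∀ v, e1 (f1 v) = f1 (e1 v) + ((2 : F) • A v - B v)
  e1f2 : ∀ v, e1 (f2 v) = f2 (e1 v)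
  e1f3 : ∀ v, e1 (f3 v) = f3 (e1 v) - f2 v
  e2f1 : ∀ v, e2 (f1 v) = f1 (e2 v)
  e2f2 : ∀ v, e2 (f2 v) = f2 (e2 v) + ((2 : F) • B v - A v)
  e2f3 : ∀ v, e2 (f3 v) = f3 (e2 v) + f1 v
  e3f1 : ∀ v, e3 (f1 v) = f1 (e3 v) - e2 v
  e3f2 : ∀ v, e3 (f2 v) = f2 (e3 v) + e1 v
  e3f3 : ∀ v, e3 (f3 v) = f3 (e3 v) + (A v + B v)
  Af1 : ∀ v, A (f1 v) = f1 (A v) - f1 v
  Af2 : ∀ v, A (f2 v) = f2 (A v)
  Af3 : ∀ v, A (f3 v) = f3 (A v) - f3 v
  Bf1 : ∀ v, B (f1 v) = f1 (B v)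
  Bf2 : ∀ v, B (f2 v) = f2 (B v) - f2 v
  Bf3 : ∀ v, B (f3 v) = f3 (B v) - f3 v
  e1A : ∀ v, e1 (A v) = A (e1 v) - e1 v
  e1B : ∀ v, e1 (B v) = B (e1 v)
  e2A : ∀ v, e2 (A v) = A (e2 v)
  e2B : ∀ v, e2 (B v) = B (e2 v) - e2 v
  e3A : ∀ v, e3 (A v) = A (e3 v) - e3 v
  e3B : ∀ v, e3 (B v) = B (e3 v) - e3 v
  BA : ∀ v, B (A v) = A (B v)

variable {F : Type} [Field F] [CharZero F] {M : Type} [AddCommGroup M] [Module F M]

namespace Sl3

variable (R : Sl3 F M)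

/-- the Casimir element minus a constant -/
noncomputable def K (m : F) : M →ₗ[F] M :=
  R.f1 ∘ₗ R.e1 + R.f2 ∘ₗ R.e2 + R.f3 ∘ₗ R.e3 + R.A ∘ₗ R.A - R.A ∘ₗ R.B + R.B ∘ₗ R.B + R.A + R.B
    - m • LinearMap.id

theorem K_apply (m : F) (v : M) : R.K m v = R.f1 (R.e1 v) + R.f2 (R.e2 v) + R.f3 (R.e3 v) +
    R.A (R.A v) - R.A (R.B v) + R.B (R.B v) + R.A v + R.B v - m • v := rfl

theorem K_e1 (m : F) (v : M) : R.K m (R.e1 v) = R.e1 (R.K m v) := by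
  simp only [K_apply, map_add, map_sub, map_smul, R.e2e1, R.e3e1, R.e3e2, R.f1f2, R.f1f3, R.f2f3,
    R.e1f1, R.e1f2, R.e1f3, R.e2f1, R.e2f2, R.e2f3, R.e3f1, R.e3f2, R.e3f3, R.Af1, R.Af2, R.Af3,
    R.Bf1, R.Bf2, R.Bf3, R.e1A, R.e1B, R.e2A, R.e2B, R.e3A, R.e3B, R.BA]
  module

theorem K_e2 (m : F) (v : M) : R.K m (R.e2 v) = R.e2 (R.K m v) := by
  simp only [K_apply, map_add, map_sub, map_smul, R.e2e1, R.e3e1, R.e3e2, R.f1f2, R.f1f3, R.f2f3,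
    R.e1f1, R.e1f2, R.e1f3, R.e2f1, R.e2f2, R.e2f3, R.e3f1, R.e3f2, R.e3f3, R.Af1, R.Af2, R.Af3,
    R.Bf1, R.Bf2, R.Bf3, R.e1A, R.e1B, R.e2A, R.e2B, R.e3A, R.e3B, R.BA]
  module

theorem K_e3 (m : F) (v : M) : R.K m (R.e3 v) = R.e3 (R.K m v) := by
  simp only [K_apply, map_add, map_sub, map_smul, R.e2e1, R.e3e1, R.e3e2, R.f1f2, R.f1f3, R.f2f3,
    R.e1f1, R.e1f2, R.e1f3, R.e2f1, R.e2f2, R.e2f3, R.e3f1, R.e3f2, R.e3f3, R.Af1, R.Af2, R.Af3,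
    R.Bf1, R.Bf2, R.Bf3, R.e1A, R.e1B, R.e2A, R.e2B, R.e3A, R.e3B, R.BA]
  module

end Sl3

/-- `Z a b` are subspaces of the weight spaces of the action `R`, stable under `sl₃`,
finite-dimensional and zero for large `a + b` -/
structure Fam (R : Sl3 F M) (Z : ℤ → ℤ → Submodule F M) : Prop where
  wA : ∀ a b, ∀ v ∈ Z a b, R.A v = (a : F) • v
  wB : ∀ a b, ∀ v ∈ Z a b, R.B v = (b : F) • v
  e1 : ∀ a b, ∀ v ∈ Z a b, R.e1 v ∈ Z (a + 1) b
  e2 : ∀ a b, ∀ v ∈ Z a b, R.e2 v ∈ Z a (b + 1)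
  f1 : ∀ a b, ∀ v ∈ Z a b, R.f1 v ∈ Z (a - 1) b
  f2 : ∀ a b, ∀ v ∈ Z a b, R.f2 v ∈ Z a (b - 1)
  fin : ∀ a b, FiniteDimensional F (Z a b)
  bot : ∃ N : ℤ, ∀ a b, N < a + b → Z a b = ⊥

namespace Fam

variable {R : Sl3 F M} {Z : ℤ → ℤ → Submodule F M} (H : Fam R Z)

include H

theorem e3 (a b : ℤ) (v : M) (hv : v ∈ Z a b) : R.e3 v ∈ Z (a + 1) (b + 1) := by
  have h1 : R.e3 v = R.e1 (R.e2 v) - R.e2 (R.e1 v) := by rw [R.e2e1]; abel
  rw [h1]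
  exact Submodule.sub_mem _ (H.e1 _ _ _ (H.e2 _ _ _ hv)) (H.e2 _ _ _ (H.e1 _ _ _ hv))

theorem f3 (a b : ℤ) (v : M) (hv : v ∈ Z a b) : R.f3 v ∈ Z (a - 1) (b - 1) := by
  have h1 : R.f3 v = R.f2 (R.f1 v) - R.f1 (R.f2 v) := by rw [R.f1f2]; abel
  rw [h1]
  exact Submodule.sub_mem _ (H.f2 _ _ _ (H.f1 _ _ _ hv)) (H.f1 _ _ _ (H.f2 _ _ _ hv))

/-- the value of the Casimir element at the highest weight `(a, b)` -/
def _root_.Pool.Agent.U691.CE3.qq (a b : ℤ) : ℤ := a ^ 2 - a * b + b ^ 2 + a + b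

theorem K_wt {a b : ℤ} {v : M} (hv : v ∈ Z a b) (m : F) : R.K m v =
    R.f1 (R.e1 v) + R.f2 (R.e2 v) + R.f3 (R.e3 v) + ((qq a b : ℤ) - m : F) • v := by
  rw [R.K_apply]
  simp only [H.wA a b v hv, H.wB a b v hv, map_smul]
  unfold qq
  push_cast
  module

theorem K_mem {a b : ℤ} {v : M} (hv : v ∈ Z a b) (m : F) : R.K m v ∈ Z a b := by
  rw [H.K_wt hv]
  refine Submodule.add_mem _ (Submodule.add_mem _ (Submodule.add_mem _ ?_ ?_) ?_)
    (Submodule.smul_mem _ _ hv)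
  · have := H.f1 _ _ _ (H.e1 _ _ _ hv)
    rwa [add_sub_cancel_right] at this
  · have := H.f2 _ _ _ (H.e2 _ _ _ hv)
    rwa [add_sub_cancel_right] at this
  · have := H.f3 _ _ _ (H.e3 _ _ _ hv)
    rwa [add_sub_cancel_right, add_sub_cancel_right] at this

theorem K_inj {a b : ℤ} (ha : 0 ≤ 2 * a - b) (hb : 0 ≤ 2 * b - a) (x y : ℕ) (hxy : 1 ≤ x + y)
    {v : M} (hv : v ∈ Z (a + x) (b + y)) (hK : R.K (qq a b : ℤ) v = 0) : v = 0 := by
  obtain ⟨N, hN⟩ := H.bot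
  have key : ∀ (s : ℕ) (x y : ℕ), 1 ≤ x + y → N < a + b + x + y + s →
      ∀ v ∈ Z (a + x) (b + y), R.K (qq a b : ℤ) v = 0 → v = 0 := by
    intro s
    induction s with
    | zero =>
      intro x y _ h v hv _
      rw [hN _ _ (by push_cast at h; omega), Submodule.mem_bot] at hv
      exact hv
    | succ s ih =>
      intro x y hxy h v hv hK
      have h1 : R.e1 v = 0 := by
        apply ih (x + 1) y (by omega) (by push_cast at h ⊢; omega)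
        · have := H.e1 _ _ _ hv
          rw [add_assoc] at this
          exact_mod_cast this
        · rw [R.K_e1, hK, map_zero]
      have h2 : R.e2 v = 0 := by
        apply ih x (y + 1) (by omega) (by push_cast at h ⊢; omega)
        · have := H.e2 _ _ _ hv
          rw [add_assoc] at this
          exact_mod_cast this
        · rw [R.K_e2, hK, map_zero]
      have h3 : R.e3 v = 0 := by
        have h4 : R.e3 v = R.e1 (R.e2 v) - R.e2 (R.e1 v) := by rw [R.e2e1]; abel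
        rw [h4, h1, h2, map_zero, map_zero, sub_zero]
      rw [H.K_wt hv, h1, h2, h3, map_zero, map_zero, map_zero, add_zero, add_zero, zero_add] at hK
      refine (smul_eq_zero.1 hK).resolve_left ?_
      rw [← Int.cast_sub]
      apply Int.cast_ne_zero.2
      unfold qq
      have hx : (0 : ℤ) ≤ x := Int.natCast_nonneg _
      have hy : (0 : ℤ) ≤ y := Int.natCast_nonneg _
      have hxy' : (1 : ℤ) ≤ (x : ℤ) + y := by exact_mod_cast hxy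
      nlinarith [mul_nonneg hx ha, mul_nonneg hy hb, sq_nonneg ((x : ℤ) - y), sq_nonneg (x : ℤ),
        sq_nonneg (y : ℤ)]
  refine key (N + 1 - (a + b)).toNat x y hxy ?_ v hv hK
  have := Int.self_le_toNat (N + 1 - (a + b))
  omega

theorem K_surj {a b : ℤ} (ha : 0 ≤ 2 * a - b) (hb : 0 ≤ 2 * b - a) (x y : ℕ) (hxy : 1 ≤ x + y)
    {w : M} (hw : w ∈ Z (a + x) (b + y)) : ∃ v ∈ Z (a + x) (b + y), R.K (qq a b : ℤ) v = w := by
  haveI := H.fin (a + x) (b + y)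
  let T : Z (a + x) (b + y) →ₗ[F] Z (a + x) (b + y) :=
    (R.K (qq a b : ℤ)).restrict fun v hv => H.K_mem hv _
  have h1 : Function.Injective T := by
    rw [← LinearMap.ker_eq_bot, eq_bot_iff]
    rintro ⟨v, hv⟩ hT
    rw [LinearMap.mem_ker] at hT
    have h2 : R.K (qq a b : ℤ) v = 0 := congrArg Subtype.val hT
    rw [Submodule.mem_bot]
    exact Subtype.ext (H.K_inj ha hb x y hxy hv h2)
  have h2 : Function.Surjective T := LinearMap.injective_iff_surjective.1 h1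
  obtain ⟨⟨v, hv⟩, hT⟩ := h2 ⟨w, hw⟩
  exact ⟨v, hv, congrArg Subtype.val hT⟩

/-- exactness in degree one -/
theorem exact1 {a b : ℤ} (ha : 0 ≤ 2 * a - b) (hb : 0 ≤ 2 * b - a) {x1 x2 : M}
    (h1 : x1 ∈ Z (a + 1) b) (h2 : x2 ∈ Z a (b + 1))
    (c1 : R.e1 (R.e1 x2 - R.e2 x1) = R.e3 x1) (c2 : R.e2 (R.e1 x2 - R.e2 x1) = R.e3 x2) :
    ∃ z ∈ Z a b, R.e1 z = x1 ∧ R.e2 z = x2 := by
  obtain ⟨y1, hy1, k1⟩ := H.K_surj ha hb 1 0 (by norm_num) (w := x1) (by simpa using h1)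
  obtain ⟨y2, hy2, k2⟩ := H.K_surj ha hb 0 1 (by norm_num) (w := x2) (by simpa using h2)
  have m1 : y1 ∈ Z (a + 1) b := by simpa using hy1
  have m2 : y2 ∈ Z a (b + 1) := by simpa using hy2
  set y3 := R.e1 y2 - R.e2 y1 with hy3
  have m3 : y3 ∈ Z (a + 1) (b + 1) :=
    Submodule.sub_mem _ (H.e1 _ _ _ m2) (H.e2 _ _ _ m1)
  have k3 : R.K (qq a b : ℤ) y3 = R.e1 x2 - R.e2 x1 := by
    rw [hy3, map_sub, R.K_e1, R.K_e2, k1, k2]
  have r1 : R.e1 y3 = R.e3 y1 := by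
    rw [← sub_eq_zero]
    apply H.K_inj ha hb 2 1 (by norm_num)
    · have q1 := H.e1 _ _ _ m3
      have q2 := H.e3 _ _ _ m1
      have q3 := Submodule.sub_mem _ q1 q2
      rw [add_assoc] at q3
      exact q3
    · rw [map_sub, R.K_e1, R.K_e3, k3, k1, c1, sub_self]
  have r2 : R.e2 y3 = R.e3 y2 := by
    rw [← sub_eq_zero]
    apply H.K_inj ha hb 1 2 (by norm_num)
    · have q1 := H.e2 _ _ _ m3
      have q2 := H.e3 _ _ _ m2
      have q3 := Submodule.sub_mem _ q1 q2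
      rw [add_assoc] at q3
      exact q3
    · rw [map_sub, R.K_e2, R.K_e3, k3, k2, c2, sub_self]
  have s1 : R.e1 y2 = y3 + R.e2 y1 := by rw [hy3]; abel
  have s2 : R.e2 y1 = R.e1 y2 - y3 := by rw [hy3]; abel
  have w1 := H.K_wt m1 (qq a b : ℤ)
  have w2 := H.K_wt m2 (qq a b : ℤ)
  refine ⟨R.f1 y1 + R.f2 y2 + R.f3 y3, ?_, ?_, ?_⟩
  · refine Submodule.add_mem _ (Submodule.add_mem _ ?_ ?_) ?_
    · have := H.f1 _ _ _ m1
      rwa [add_sub_cancel_right] at this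
    · have := H.f2 _ _ _ m2
      rwa [add_sub_cancel_right] at this
    · have := H.f3 _ _ _ m3
      rwa [add_sub_cancel_right, add_sub_cancel_right] at this
  · rw [← k1, w1]
    simp only [map_add, R.e1f1, R.e1f2, R.e1f3, r1, s1, H.wA _ _ _ m1, H.wB _ _ _ m1]
    unfold qq
    push_cast
    module
  · rw [← k2, w2]
    simp only [map_add, R.e2f1, R.e2f2, R.e2f3, r2, s2, map_sub, H.wA _ _ _ m2, H.wB _ _ _ m2]
    unfold qq
    push_cast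
    module

/-- exactness in degree two -/
theorem exact2 {a b : ℤ} (ha : 0 ≤ 2 * a - b) (hb : 0 ≤ 2 * b - a) {y1 y2 : M}
    (h1 : y1 ∈ Z (a + 2) (b + 1)) (h2 : y2 ∈ Z (a + 1) (b + 2)) (c : R.e1 y2 = R.e2 y1) :
    ∃ x1 ∈ Z (a + 1) b, ∃ x2 ∈ Z a (b + 1), R.e1 (R.e1 x2 - R.e2 x1) - R.e3 x1 = y1 ∧
      R.e2 (R.e1 x2 - R.e2 x1) - R.e3 x2 = y2 := by
  obtain ⟨z1, hz1, k1⟩ := H.K_surj ha hb 2 1 (by norm_num) (w := y1) (by simpa using h1)
  obtain ⟨z2, hz2, k2⟩ := H.K_surj ha hb 1 2 (by norm_num) (w := y2) (by simpa using h2)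
  have m1 : z1 ∈ Z (a + 2) (b + 1) := by simpa using hz1
  have m2 : z2 ∈ Z (a + 1) (b + 2) := by simpa using hz2
  have r : R.e1 z2 = R.e2 z1 := by
    rw [← sub_eq_zero]
    apply H.K_inj ha hb 2 2 (by norm_num)
    · have q1 := H.e1 _ _ _ m2
      have q2 := H.e2 _ _ _ m1
      rw [add_assoc] at q1 q2
      exact Submodule.sub_mem _ q1 q2
    · rw [map_sub, R.K_e1, R.K_e2, k1, k2, c, sub_self]
  have w1 := H.K_wt m1 (qq a b : ℤ)
  have w2 := H.K_wt m2 (qq a b : ℤ)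
  have t : R.e1 (-R.f3 z2) - R.e2 (-R.f3 z1) = R.f1 z1 + R.f2 z2 := by
    simp only [map_neg, R.e1f3, R.e2f3, r]
    abel
  refine ⟨-R.f3 z1, ?_, -R.f3 z2, ?_, ?_, ?_⟩
  · have := H.f3 _ _ _ m1
    rw [add_sub_cancel_right, add_sub_assoc] at this
    exact Submodule.neg_mem _ this
  · have := H.f3 _ _ _ m2
    rw [add_sub_cancel_right, add_sub_assoc] at this
    exact Submodule.neg_mem _ this
  · rw [t, ← k1, w1]
    simp only [map_add, map_neg, R.e1f1, R.e1f2, R.e3f3, r, H.wA _ _ _ m1, H.wB _ _ _ m1]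
    unfold qq
    push_cast
    module
  · rw [t, ← k2, w2]
    simp only [map_add, map_neg, R.e2f1, R.e2f2, R.e3f3, ← r, H.wA _ _ _ m2, H.wB _ _ _ m2]
    unfold qq
    push_cast
    module

/-- exactness in degree three -/
theorem exact3 {a b : ℤ} (ha : 0 ≤ 2 * a - b) (hb : 0 ≤ 2 * b - a) {z : M}
    (h : z ∈ Z (a + 2) (b + 2)) :
    ∃ y1 ∈ Z (a + 2) (b + 1), ∃ y2 ∈ Z (a + 1) (b + 2), R.e1 y2 - R.e2 y1 = z := by
  obtain ⟨z', hz', k⟩ := H.K_surj ha hb 2 2 (by norm_num) (w := z) (by simpa using h)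
  have m : z' ∈ Z (a + 2) (b + 2) := by simpa using hz'
  have w := H.K_wt m (qq a b : ℤ)
  have m3 : R.f3 z' ∈ Z (a + 1) (b + 1) := by
    have := H.f3 _ _ _ m
    rwa [add_sub_assoc, add_sub_assoc] at this
  refine ⟨-R.f2 z' + R.e1 (R.f3 z'), ?_, R.f1 z' + R.e2 (R.f3 z'), ?_, ?_⟩
  · refine Submodule.add_mem _ (Submodule.neg_mem _ ?_) ?_
    · have := H.f2 _ _ _ m
      rwa [add_sub_assoc] at this
    · have := H.e1 _ _ _ m3
      rwa [add_assoc] at this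
  · refine Submodule.add_mem _ ?_ ?_
    · have := H.f1 _ _ _ m
      rwa [add_sub_assoc] at this
    · have := H.e2 _ _ _ m3
      rwa [add_assoc] at this
  · rw [← k, w]
    simp only [map_add, map_neg, R.e1f1, R.e2f2, R.e1f3, R.e2f3, R.e2e1, R.e3f3, R.e1f2, R.e2f1,
      map_sub, H.wA _ _ _ m, H.wB _ _ _ m]
    unfold qq
    push_cast
    module

end Fam

section Rank

variable {E E' : Type} [AddCommGroup E] [Module F E] [AddCommGroup E'] [Module F E']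

theorem rank_nullity' (d : E →ₗ[F] E') (K : Submodule F E) [FiniteDimensional F K] :
    Module.finrank F K = Module.finrank F (K.map d) +
      Module.finrank F (K ⊓ LinearMap.ker d : Submodule F E) := by
  rw [← LinearMap.finrank_range_add_finrank_ker (d.domRestrict K)]
  congr 1
  · rw [LinearMap.range_domRestrict]
  · have h : (LinearMap.ker (d.domRestrict K)).map K.subtype = K ⊓ LinearMap.ker d := by
      ext x
      constructor
      · rintro ⟨y, hy, rfl⟩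
        exact ⟨y.2, hy⟩
      · rintro ⟨h1, h2⟩
        exact ⟨⟨x, h1⟩, h2, rfl⟩
    rw [← h]
    exact (Submodule.finrank_map_subtype_eq K _).symm

/-- the product of two subspaces -/
def prodEq (p : Submodule F E) (q : Submodule F E') : (p × q) ≃ₗ[F] (p.prod q) where
  toFun x := ⟨(x.1, x.2), ⟨x.1.2, x.2.2⟩⟩
  invFun x := (⟨x.1.1, x.2.1⟩, ⟨x.1.2, x.2.2⟩)
  map_add' _ _ := rfl
  map_smul' _ _ := rfl
  left_inv _ := rfl
  right_inv _ := rfl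

instance finite_prod' (p : Submodule F E) (q : Submodule F E') [FiniteDimensional F p]
    [FiniteDimensional F q] : FiniteDimensional F (p.prod q) :=
  Module.Finite.equiv (prodEq p q)

theorem finrank_prod' (p : Submodule F E) (q : Submodule F E') [FiniteDimensional F p]
    [FiniteDimensional F q] : Module.finrank F (p.prod q) =
      Module.finrank F p + Module.finrank F q := by
  rw [← Module.finrank_prod]
  exact (prodEq p q).symm.finrank_eq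

end Rank

namespace Fam

variable {R : Sl3 F M} {Z : ℤ → ℤ → Submodule F M} (H : Fam R Z)

include H

/-- the dimension of the space of highest weight vectors -/
theorem finrank_hw {a b : ℤ} (ha : 0 ≤ 2 * a - b) (hb : 0 ≤ 2 * b - a) :
    (Module.finrank F (Z a b ⊓ (LinearMap.ker R.e1 ⊓ LinearMap.ker R.e2) : Submodule F M) : ℤ) =
      Module.finrank F (Z a b) - (Module.finrank F (Z (a + 1) b) + Module.finrank F (Z a (b + 1)))
      + (Module.finrank F (Z (a + 2) (b + 1)) + Module.finrank F (Z (a + 1) (b + 2)))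
      - Module.finrank F (Z (a + 2) (b + 2)) := by
  have i1 := H.fin a b
  have i2 := H.fin (a + 1) b
  have i3 := H.fin a (b + 1)
  have i4 := H.fin (a + 2) (b + 1)
  have i5 := H.fin (a + 1) (b + 2)
  let D0 : M →ₗ[F] M × M := R.e1.prod R.e2
  let X3 : M × M →ₗ[F] M := R.e1 ∘ₗ LinearMap.snd F M M - R.e2 ∘ₗ LinearMap.fst F M M
  let D1 : M × M →ₗ[F] M × M :=
    (R.e1 ∘ₗ X3 - R.e3 ∘ₗ LinearMap.fst F M M).prod (R.e2 ∘ₗ X3 - R.e3 ∘ₗ LinearMap.snd F M M)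
  let D2 : M × M →ₗ[F] M := R.e1 ∘ₗ LinearMap.snd F M M - R.e2 ∘ₗ LinearMap.fst F M M
  have r0 := rank_nullity' D0 (Z a b)
  have r1 := rank_nullity' D1 ((Z (a + 1) b).prod (Z a (b + 1)))
  have r2 := rank_nullity' D2 ((Z (a + 2) (b + 1)).prod (Z (a + 1) (b + 2)))
  rw [finrank_prod'] at r1 r2
  have k0 : Z a b ⊓ LinearMap.ker D0 = Z a b ⊓ (LinearMap.ker R.e1 ⊓ LinearMap.ker R.e2) := by
    congr 1
    exact LinearMap.ker_prod _ _
  have k1 : (Z (a + 1) b).prod (Z a (b + 1)) ⊓ LinearMap.ker D1 = (Z a b).map D0 := by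
    apply le_antisymm
    · rintro ⟨x1, x2⟩ ⟨⟨h1, h2⟩, h3⟩
      have h4 : (R.e1 (R.e1 x2 - R.e2 x1) - R.e3 x1, R.e2 (R.e1 x2 - R.e2 x1) - R.e3 x2) =
        (0 : M × M) := h3
      rw [Prod.mk_eq_zero] at h4
      obtain ⟨z, hz, e1, e2⟩ := H.exact1 ha hb h1 h2 (sub_eq_zero.1 h4.1) (sub_eq_zero.1 h4.2)
      exact ⟨z, hz, Prod.ext e1 e2⟩
    · rintro _ ⟨z, hz, rfl⟩
      refine ⟨⟨H.e1 _ _ _ hz, H.e2 _ _ _ hz⟩, ?_⟩
      show (R.e1 (R.e1 (R.e2 z) - R.e2 (R.e1 z)) - R.e3 (R.e1 z),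
        R.e2 (R.e1 (R.e2 z) - R.e2 (R.e1 z)) - R.e3 (R.e2 z)) = (0 : M × M)
      rw [Prod.mk_eq_zero]
      constructor
      · simp only [map_sub, R.e2e1, R.e3e1, R.e3e2]
        abel
      · simp only [map_sub, R.e2e1, R.e3e1, R.e3e2]
        abel
  have k2 : (Z (a + 2) (b + 1)).prod (Z (a + 1) (b + 2)) ⊓ LinearMap.ker D2 =
      ((Z (a + 1) b).prod (Z a (b + 1))).map D1 := by
    apply le_antisymm
    · rintro ⟨y1, y2⟩ ⟨⟨h1, h2⟩, h3⟩
      have h4 : R.e1 y2 - R.e2 y1 = 0 := h3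
      obtain ⟨x1, hx1, x2, hx2, e1, e2⟩ := H.exact2 ha hb h1 h2 (sub_eq_zero.1 h4)
      exact ⟨(x1, x2), ⟨hx1, hx2⟩, Prod.ext e1 e2⟩
    · rintro _ ⟨⟨x1, x2⟩, ⟨h1, h2⟩, rfl⟩
      have h1' : x1 ∈ Z (a + 1) b := h1
      have h2' : x2 ∈ Z a (b + 1) := h2
      have h3 : R.e1 x2 - R.e2 x1 ∈ Z (a + 1) (b + 1) :=
        Submodule.sub_mem _ (H.e1 _ _ _ h2') (H.e2 _ _ _ h1')
      refine ⟨⟨Submodule.sub_mem _ ?_ ?_, Submodule.sub_mem _ ?_ ?_⟩, ?_⟩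
      · have := H.e1 _ _ _ h3
        rwa [add_assoc] at this
      · have := H.e3 _ _ _ h1'
        rwa [add_assoc] at this
      · have := H.e2 _ _ _ h3
        rwa [add_assoc] at this
      · have := H.e3 _ _ _ h2'
        rwa [add_assoc] at this
      · show R.e1 (R.e2 (R.e1 x2 - R.e2 x1) - R.e3 x2) - R.e2 (R.e1 (R.e1 x2 - R.e2 x1) - R.e3 x1) =
          0
        simp only [map_sub, R.e2e1, R.e3e1, R.e3e2]
        abel
  have k3 : ((Z (a + 2) (b + 1)).prod (Z (a + 1) (b + 2))).map D2 = Z (a + 2) (b + 2) := by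
    apply le_antisymm
    · rintro _ ⟨⟨y1, y2⟩, ⟨h1, h2⟩, rfl⟩
      refine Submodule.sub_mem _ ?_ ?_
      · have := H.e1 _ _ _ h2
        rwa [add_assoc] at this
      · have := H.e2 _ _ _ h1
        rwa [add_assoc] at this
    · intro z hz
      obtain ⟨y1, hy1, y2, hy2, e⟩ := H.exact3 ha hb hz
      exact ⟨(y1, y2), ⟨hy1, hy2⟩, e⟩
  rw [k0] at r0
  rw [k1] at r1
  rw [k2, k3] at r2
  omega

end Fam

end Pool.Agent.U691.CE3
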