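import Pool.Agent.U691.CE.HW
import Pool.Agent.U691.CE3.SL3

/-!
# Highest weight vectors in the Chevalley–Eilenberg complex (case of `sl₃`)
-/

set_option autoImplicit false
set_option linter.unusedSectionVars false
set_option linter.unusedSimpArgs false

namespace Pool.Agent.U691.CE3

open ExteriorAlgebra Pool.Agent.U691.CE

section

variable {F : Type} [Field F] {L : Type} [AddCommGroup L] [Module F L]

theorem Th_rel {D D' E : L →ₗ[F] L} (h : ∀ v, D (D' v) = D' (D v) + E v)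
    (ω : ExteriorAlgebra F L) : Th D (Th D' ω) = Th D' (Th D ω) + Th E ω := by
  have h1 : D * D' - D' * D = E := by
    ext x
    simp only [LinearMap.sub_apply, Module.End.mul_apply]
    rw [h]; abel
  have h2 := Th_lie D D' ω
  rw [h1] at h2
  rw [h2]; abel

theorem Th_rel0 {D D' : L →ₗ[F] L} (h : ∀ v, D (D' v) = D' (D v))
    (ω : ExteriorAlgebra F L) : Th D (Th D' ω) = Th D' (Th D ω) := by
  have h1 := Th_rel (D := D) (D' := D') (E := 0) (by intro v; rw [h v]; simp) ω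
  rwa [Th_zero, add_zero] at h1

theorem Th_relS {D D' E : L →ₗ[F] L} (h : ∀ v, D (D' v) = D' (D v) - E v)
    (ω : ExteriorAlgebra F L) : Th D (Th D' ω) = Th D' (Th D ω) - Th E ω := by
  have h1 := Th_rel (D := D) (D' := D') (E := -E) (by
    intro v; rw [h v, LinearMap.neg_apply, sub_eq_add_neg]) ω
  rwa [Th_neg, ← sub_eq_add_neg] at h1

/-- the action on the exterior algebra -/
noncomputable def Sl3.ext (R : Sl3 F L) : Sl3 F (ExteriorAlgebra F L) where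
  e1 := Th R.e1
  e2 := Th R.e2
  e3 := Th R.e3
  f1 := Th R.f1
  f2 := Th R.f2
  f3 := Th R.f3
  A := Th R.A
  B := Th R.B
  e2e1 := Th_relS R.e2e1
  e3e1 := Th_rel0 R.e3e1
  e3e2 := Th_rel0 R.e3e2
  f1f2 := Th_relS R.f1f2
  f1f3 := Th_rel0 R.f1f3
  f2f3 := Th_rel0 R.f2f3
  e1f1 := by
    intro v
    rw [← Th_smul, ← Th_sub]
    exact Th_rel (E := (2 : F) • R.A - R.B) R.e1f1 v
  e1f2 := Th_rel0 R.e1f2
  e1f3 := Th_relS R.e1f3
  e2f1 := Th_rel0 R.e2f1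
  e2f2 := by
    intro v
    rw [← Th_smul, ← Th_sub]
    exact Th_rel (E := (2 : F) • R.B - R.A) R.e2f2 v
  e2f3 := Th_rel R.e2f3
  e3f1 := Th_relS R.e3f1
  e3f2 := Th_rel R.e3f2
  e3f3 := by
    intro v
    rw [← Th_add]
    exact Th_rel (E := R.A + R.B) R.e3f3 v
  Af1 := Th_relS R.Af1
  Af2 := Th_rel0 R.Af2
  Af3 := Th_relS R.Af3
  Bf1 := Th_rel0 R.Bf1
  Bf2 := Th_relS R.Bf2
  Bf3 := Th_relS R.Bf3
  e1A := Th_relS R.e1A
  e1B := Th_rel0 R.e1B
  e2A := Th_rel0 R.e2A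
  e2B := Th_relS R.e2B
  e3A := Th_relS R.e3A
  e3B := Th_relS R.e3B
  BA := Th_rel0 R.BA

end

/-- A graded Lie algebra with an action of `sl₃` by derivations, with a basis which consists of
homogeneous weight vectors. -/
structure Dat3 (F : Type) [Field F] (L : Type) [LieRing L] [LieAlgebra F L] (I : Type)
    [LinearOrder I] where
  b : Module.Basis I F L
  R : Sl3 F L
  N : L →ₗ[F] L
  de1 : IsDer R.e1
  de2 : IsDer R.e2
  df1 : IsDer R.f1
  df2 : IsDer R.f2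
  dA : IsDer R.A
  dB : IsDer R.B
  dN : IsDer N
  Ne1 : ∀ v, N (R.e1 v) = R.e1 (N v)
  Ne2 : ∀ v, N (R.e2 v) = R.e2 (N v)
  Nf1 : ∀ v, N (R.f1 v) = R.f1 (N v)
  Nf2 : ∀ v, N (R.f2 v) = R.f2 (N v)
  deg : I → ℤ
  wa : I → ℤ
  wb : I → ℤ
  hdeg : ∀ j, N (b j) = (deg j : F) • b j
  hwa : ∀ j, R.A (b j) = (wa j : F) • b j
  hwb : ∀ j, R.B (b j) = (wb j : F) • b j
  pos : ∀ j, 1 ≤ deg j
  bda1 : ∀ j, wa j ≤ deg j
  bda2 : ∀ j, -deg j ≤ wa j
  bdb1 : ∀ j, wb j ≤ deg j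
  bdb2 : ∀ j, -deg j ≤ wb j
  fin : ∀ n : ℤ, {j | deg j ≤ n}.Finite

variable {F : Type} [Field F] [CharZero F] {L : Type} [LieRing L] [LieAlgebra F L] {I : Type}
  [LinearOrder I]

namespace Dat3

variable (X : Dat3 F L I)

/-- the grading operators -/
def D : Fin 3 → L →ₗ[F] L := ![X.N, X.R.A, X.R.B]

/-- their eigenvalues -/
def c : Fin 3 → I → ℤ := ![X.deg, X.wa, X.wb]

theorem hc : ∀ a j, X.D a (X.b j) = (X.c a j : F) • X.b j := by
  intro a j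
  fin_cases a
  · exact X.hdeg j
  · exact X.hwa j
  · exact X.hwb j

theorem hD : ∀ a, IsDer (X.D a) := by
  intro a
  fin_cases a
  · exact X.dN
  · exact X.dA
  · exact X.dB

/-- exterior degree `k`, degree `n`, weight `(a, b)` -/
noncomputable def V (k : ℕ) (n a b : ℤ) : Submodule F (ExteriorAlgebra F L) := W X.D k ![n, a, b]

theorem mem_V {k : ℕ} {n a b : ℤ} {ω : ExteriorAlgebra F L} : ω ∈ X.V k n a b ↔
    Th LinearMap.id ω = (k : F) • ω ∧ Th X.N ω = (n : F) • ω ∧ Th X.R.A ω = (a : F) • ω ∧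
      Th X.R.B ω = (b : F) • ω := by
  constructor
  · intro h
    exact ⟨h.1, h.2 0, h.2 1, h.2 2⟩
  · rintro ⟨h1, h2, h3, h4⟩
    refine ⟨h1, fun i => ?_⟩
    fin_cases i
    · exact h2
    · exact h3
    · exact h4

theorem gs_0 (s : Finset I) : gs X.c s 0 = ∑ j ∈ s, X.deg j := rfl

theorem gs_1 (s : Finset I) : gs X.c s 1 = ∑ j ∈ s, X.wa j := rfl

theorem gs_2 (s : Finset I) : gs X.c s 2 = ∑ j ∈ s, X.wb j := rfl

theorem gs_eq (s : Finset I) (n a b : ℤ) : gs X.c s = ![n, a, b] ↔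
    ∑ j ∈ s, X.deg j = n ∧ ∑ j ∈ s, X.wa j = a ∧ ∑ j ∈ s, X.wb j = b := by
  constructor
  · intro h
    exact ⟨by rw [← gs_0, h]; rfl, by rw [← gs_1, h]; rfl, by rw [← gs_2, h]; rfl⟩
  · rintro ⟨h1, h2, h3⟩
    funext a
    fin_cases a
    · exact h1
    · exact h2
    · exact h3

theorem card_le (s : Finset I) : (s.card : ℤ) ≤ ∑ j ∈ s, X.deg j := by
  have := Finset.sum_le_sum (s := s) fun j _ => X.pos j
  simpa using this

theorem wa_le (s : Finset I) : ∑ j ∈ s, X.wa j ≤ ∑ j ∈ s, X.deg j :=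
  Finset.sum_le_sum fun j _ => X.bda1 j

theorem wb_le (s : Finset I) : ∑ j ∈ s, X.wb j ≤ ∑ j ∈ s, X.deg j :=
  Finset.sum_le_sum fun j _ => X.bdb1 j

theorem le_wa (s : Finset I) : -∑ j ∈ s, X.deg j ≤ ∑ j ∈ s, X.wa j := by
  rw [← Finset.sum_neg_distrib]
  exact Finset.sum_le_sum fun j _ => X.bda2 j

theorem le_wb (s : Finset I) : -∑ j ∈ s, X.deg j ≤ ∑ j ∈ s, X.wb j := by
  rw [← Finset.sum_neg_distrib]
  exact Finset.sum_le_sum fun j _ => X.bdb2 j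

/-- the basis elements of degree at most `n` -/
noncomputable def In (n : ℤ) : Finset I := (X.fin n).toFinset

theorem mem_In {n : ℤ} {j : I} : j ∈ X.In n ↔ X.deg j ≤ n := by
  unfold In
  rw [Set.Finite.mem_toFinset]
  rfl

theorem sub_In {s : Finset I} {n : ℤ} (h : ∑ j ∈ s, X.deg j ≤ n) : s ⊆ X.In n := by
  intro j hj
  rw [mem_In]
  refine le_trans ?_ h
  exact Finset.single_le_sum (f := X.deg) (fun i _ => by have := X.pos i; omega) hj

theorem finite_s (k : ℕ) (n a b : ℤ) :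
    Finite {s : Finset I // s.card = k ∧ gs X.c s = ![n, a, b]} := by
  apply Set.Finite.to_subtype (s := {s : Finset I | s.card = k ∧ gs X.c s = ![n, a, b]})
  apply Set.Finite.subset ((X.In n).powerset.finite_toSet)
  rintro s ⟨_, h2⟩
  rw [gs_eq] at h2
  simp only [Finset.coe_powerset, Set.mem_preimage, Set.mem_powerset_iff, Finset.coe_subset]
  exact X.sub_In h2.1.le

instance fin_V (k : ℕ) (n a b : ℤ) : FiniteDimensional F (X.V k n a b) :=
  finite_W X.b X.D X.hc k _ (X.finite_s k n a b)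

/-- the number of sets of basis elements of given cardinality, degree and weight -/
noncomputable def cnt (k : ℕ) (n a b : ℤ) : ℕ :=
  Nat.card {s : Finset I // s.card = k ∧ gs X.c s = ![n, a, b]}

theorem finrank_V (k : ℕ) (n a b : ℤ) : Module.finrank F (X.V k n a b) = X.cnt k n a b :=
  finrank_W X.b X.D X.hc k _

theorem V_bot {k : ℕ} {n a b : ℤ}
    (h : ∀ s : Finset I, s.card = k → ∑ j ∈ s, X.deg j = n → ∑ j ∈ s, X.wa j = a →
      ∑ j ∈ s, X.wb j = b → False) :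
    X.V k n a b = ⊥ := by
  rw [eq_bot_iff]
  intro ω hω
  unfold V at hω
  rw [mem_W_iff X.b X.D X.hc] at hω
  rw [Submodule.mem_bot]
  apply X.b.ExteriorAlgebra.ext_elem
  intro s
  by_contra h1
  have h2 := hω s (by simpa using h1)
  rw [gs_eq] at h2
  exact h s h2.1 h2.2.1 h2.2.2.1 h2.2.2.2

theorem V_e1 {k : ℕ} {n a b : ℤ} {ω : ExteriorAlgebra F L} (h : ω ∈ X.V k n a b) :
    Th X.R.e1 ω ∈ X.V k n (a + 1) b := by
  rw [mem_V] at h ⊢
  obtain ⟨h1, h2, h3, h4⟩ := h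
  refine ⟨?_, ?_, ?_, ?_⟩
  · rw [Th_comm (D := LinearMap.id) (D' := X.R.e1) (fun v => rfl), h1, map_smul]
  · rw [Th_comm X.Ne1, h2, map_smul]
  · have h5 := X.R.ext.e1A ω
    have h6 : Th X.R.e1 (Th X.R.A ω) = Th X.R.A (Th X.R.e1 ω) - Th X.R.e1 ω := h5
    rw [h3, map_smul] at h6
    push_cast
    linear_combination (norm := module) -h6
  · have h6 : Th X.R.e1 (Th X.R.B ω) = Th X.R.B (Th X.R.e1 ω) := X.R.ext.e1B ω
    rw [← h6, h4, map_smul]

theorem V_e2 {k : ℕ} {n a b : ℤ} {ω : ExteriorAlgebra F L} (h : ω ∈ X.V k n a b) :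
    Th X.R.e2 ω ∈ X.V k n a (b + 1) := by
  rw [mem_V] at h ⊢
  obtain ⟨h1, h2, h3, h4⟩ := h
  refine ⟨?_, ?_, ?_, ?_⟩
  · rw [Th_comm (D := LinearMap.id) (D' := X.R.e2) (fun v => rfl), h1, map_smul]
  · rw [Th_comm X.Ne2, h2, map_smul]
  · have h6 : Th X.R.e2 (Th X.R.A ω) = Th X.R.A (Th X.R.e2 ω) := X.R.ext.e2A ω
    rw [← h6, h3, map_smul]
  · have h6 : Th X.R.e2 (Th X.R.B ω) = Th X.R.B (Th X.R.e2 ω) - Th X.R.e2 ω := X.R.ext.e2B ω
    rw [h4, map_smul] at h6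
    push_cast
    linear_combination (norm := module) -h6

theorem V_f1 {k : ℕ} {n a b : ℤ} {ω : ExteriorAlgebra F L} (h : ω ∈ X.V k n a b) :
    Th X.R.f1 ω ∈ X.V k n (a - 1) b := by
  rw [mem_V] at h ⊢
  obtain ⟨h1, h2, h3, h4⟩ := h
  refine ⟨?_, ?_, ?_, ?_⟩
  · rw [Th_comm (D := LinearMap.id) (D' := X.R.f1) (fun v => rfl), h1, map_smul]
  · rw [Th_comm X.Nf1, h2, map_smul]
  · have h6 : Th X.R.A (Th X.R.f1 ω) = Th X.R.f1 (Th X.R.A ω) - Th X.R.f1 ω := X.R.ext.Af1 ω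
    rw [h6, h3, map_smul]
    push_cast
    module
  · have h6 : Th X.R.B (Th X.R.f1 ω) = Th X.R.f1 (Th X.R.B ω) := X.R.ext.Bf1 ω
    rw [h6, h4, map_smul]

theorem V_f2 {k : ℕ} {n a b : ℤ} {ω : ExteriorAlgebra F L} (h : ω ∈ X.V k n a b) :
    Th X.R.f2 ω ∈ X.V k n a (b - 1) := by
  rw [mem_V] at h ⊢
  obtain ⟨h1, h2, h3, h4⟩ := h
  refine ⟨?_, ?_, ?_, ?_⟩
  · rw [Th_comm (D := LinearMap.id) (D' := X.R.f2) (fun v => rfl), h1, map_smul]
  · rw [Th_comm X.Nf2, h2, map_smul]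
  · have h6 : Th X.R.A (Th X.R.f2 ω) = Th X.R.f2 (Th X.R.A ω) := X.R.ext.Af2 ω
    rw [h6, h3, map_smul]
  · have h6 : Th X.R.B (Th X.R.f2 ω) = Th X.R.f2 (Th X.R.B ω) - Th X.R.f2 ω := X.R.ext.Bf2 ω
    rw [h6, h4, map_smul]
    push_cast
    module

/-- the weight spaces in degrees `k` and `n` -/
theorem fam (k : ℕ) (n : ℤ) : Fam X.R.ext (X.V k n) where
  wA := fun _ _ _ hv => ((X.mem_V).1 hv).2.2.1
  wB := fun _ _ _ hv => ((X.mem_V).1 hv).2.2.2
  e1 := fun _ _ _ hv => X.V_e1 hv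
  e2 := fun _ _ _ hv => X.V_e2 hv
  f1 := fun _ _ _ hv => X.V_f1 hv
  f2 := fun _ _ _ hv => X.V_f2 hv
  fin := fun a b => X.fin_V k n a b
  bot := ⟨2 * n, fun a b h => X.V_bot (by
    intro s _ h2 h3 h4
    have h5 := X.wa_le s
    have h6 := X.wb_le s
    omega)⟩

/-- the cycles in the weight spaces in degrees `k` and `n` -/
theorem famZ (k : ℕ) (n : ℤ) : Fam X.R.ext (fun a b => X.V k n a b ⊓ LinearMap.ker d) where
  wA := fun _ _ _ hv => ((X.mem_V).1 hv.1).2.2.1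
  wB := fun _ _ _ hv => ((X.mem_V).1 hv.1).2.2.2
  e1 := by
    intro a b v hv
    have h : d v = 0 := hv.2
    refine ⟨X.V_e1 hv.1, ?_⟩
    show d (Th X.R.e1 v) = 0
    rw [d_Th X.de1, h, map_zero]
  e2 := by
    intro a b v hv
    have h : d v = 0 := hv.2
    refine ⟨X.V_e2 hv.1, ?_⟩
    show d (Th X.R.e2 v) = 0
    rw [d_Th X.de2, h, map_zero]
  f1 := by
    intro a b v hv
    have h : d v = 0 := hv.2
    refine ⟨X.V_f1 hv.1, ?_⟩
    show d (Th X.R.f1 v) = 0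
    rw [d_Th X.df1, h, map_zero]
  f2 := by
    intro a b v hv
    have h : d v = 0 := hv.2
    refine ⟨X.V_f2 hv.1, ?_⟩
    show d (Th X.R.f2 v) = 0
    rw [d_Th X.df2, h, map_zero]
  fin := fun a b => Submodule.finiteDimensional_of_le (inf_le_left : _ ≤ X.V k n a b)
  bot := by
    obtain ⟨N, hN⟩ := (X.fam k n).bot
    refine ⟨N, fun a b h => ?_⟩
    rw [hN a b h, bot_inf_eq]

/-- the highest weight vectors -/
noncomputable def HW (n a b : ℤ) (k : ℕ) : Submodule F (ExteriorAlgebra F L) :=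
  X.V k n a b ⊓ (LinearMap.ker (Th X.R.e1) ⊓ LinearMap.ker (Th X.R.e2))

theorem finrank_HW (k : ℕ) (n : ℤ) {a b : ℤ} (ha : 0 ≤ 2 * a - b) (hb : 0 ≤ 2 * b - a) :
    (Module.finrank F (X.HW n a b k) : ℤ) =
      X.cnt k n a b - (X.cnt k n (a + 1) b + X.cnt k n a (b + 1))
      + (X.cnt k n (a + 2) (b + 1) + X.cnt k n (a + 1) (b + 2)) - X.cnt k n (a + 2) (b + 2) := by
  have h := (X.fam k n).finrank_hw ha hb
  simp only [finrank_V] at h
  exact h

theorem main_sum {n : ℤ} (hn : 1 ≤ n) {a b : ℤ} (ha : 0 ≤ 2 * a - b) (hb : 0 ≤ 2 * b - a)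
    (hyp : ∀ k : ℕ, 1 ≤ k → ∀ v ∈ X.V k n a b, Th X.R.e1 v = 0 → Th X.R.e2 v = 0 → d v = 0 →
      v ∈ Bk F L k) (m : ℕ) (hm : n < m) :
    ∑ k ∈ Finset.range m, (-1 : ℤ) ^ k * ((X.cnt k n a b : ℤ)
      - (X.cnt k n (a + 1) b + X.cnt k n a (b + 1))
      + (X.cnt k n (a + 2) (b + 1) + X.cnt k n (a + 1) (b + 2)) - X.cnt k n (a + 2) (b + 2))
      = 0 := by
  have h1 := euler (d (F := F) (L := L)) (X.HW n a b)
    (fun k => Submodule.finiteDimensional_of_le (inf_le_left : _ ≤ X.V k n a b))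
    (by
      rintro k v ⟨hv1, hv2, hv3⟩
      have hv2' : Th X.R.e1 v = 0 := hv2
      have hv3' : Th X.R.e2 v = 0 := hv3
      refine ⟨d_W X.hD hv1, ?_, ?_⟩
      · show Th X.R.e1 (d v) = 0
        rw [← d_Th X.de1, hv2', map_zero]
      · show Th X.R.e2 (d v) = 0
        rw [← d_Th X.de2, hv3', map_zero])
    (fun v => d_d v)
    (by
      unfold HW
      rw [X.V_bot, bot_inf_eq]
      intro s h1 h2 _ _
      rw [Finset.card_eq_zero] at h1
      subst h1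
      simp at h2
      omega)
    (by
      rintro k v ⟨hv1, hv2, hv3⟩ hdv
      have hv2' : Th X.R.e1 v = 0 := hv2
      have hv3' : Th X.R.e2 v = 0 := hv3
      have h3 := hyp (k + 1) (by omega) v hv1 hv2' hv3' hdv
      obtain ⟨u, hu, hdu⟩ := bdry_W X.b X.hc X.hD hv1 h3
      have hu' : u ∈ X.V (k + 2) n a b := hu
      have hd1 : d (Th X.R.e1 u) = 0 := by rw [d_Th X.de1, hdu, hv2']
      have hd2 : d (Th X.R.e2 u) = 0 := by rw [d_Th X.de2, hdu, hv3']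
      obtain ⟨z, hz, hz1, hz2⟩ := (X.famZ (k + 2) n).exact1 ha hb (x1 := Th X.R.e1 u)
        (x2 := Th X.R.e2 u) ⟨X.V_e1 hu', hd1⟩ ⟨X.V_e2 hu', hd2⟩
        (by
          show X.R.ext.e1 (X.R.ext.e1 (X.R.ext.e2 u) - X.R.ext.e2 (X.R.ext.e1 u)) =
            X.R.ext.e3 (X.R.ext.e1 u)
          simp only [map_sub, X.R.ext.e2e1, X.R.ext.e3e1]
          abel)
        (by
          show X.R.ext.e2 (X.R.ext.e1 (X.R.ext.e2 u) - X.R.ext.e2 (X.R.ext.e1 u)) =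
            X.R.ext.e3 (X.R.ext.e2 u)
          simp only [map_sub, X.R.ext.e2e1, X.R.ext.e3e1, X.R.ext.e3e2]
          abel)
      have hdz : d z = 0 := hz.2
      have hz1' : Th X.R.e1 z = Th X.R.e1 u := hz1
      have hz2' : Th X.R.e2 z = Th X.R.e2 u := hz2
      refine ⟨u - z, ⟨Submodule.sub_mem _ hu' hz.1, ?_, ?_⟩, ?_⟩
      · show Th X.R.e1 (u - z) = 0
        rw [map_sub, hz1', sub_self]
      · show Th X.R.e2 (u - z) = 0
        rw [map_sub, hz2', sub_self]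
      · rw [map_sub, hdu, hdz, sub_zero])
    m
    (by
      unfold HW
      rw [X.V_bot, bot_inf_eq]
      intro s h1 h2 _ _
      have := X.card_le s
      omega)
  rw [← h1]
  refine Finset.sum_congr rfl fun k _ => ?_
  rw [X.finrank_HW k n ha hb]

end Dat3

end Pool.Agent.U691.CE3
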