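import Pool.Agent.U691.CE3.HW3
import Pool.Agent.U691.CE.Hyp

/-!
# Highest weight cycles which are not boundaries generate modules in homology (case of `sl₃`)
-/

set_option autoImplicit false
set_option linter.unusedSectionVars false
set_option linter.unusedSimpArgs false

namespace Pool.Agent.U691.CE3

open ExteriorAlgebra Pool.Agent.U691.CE

variable {F : Type} [Field F] [CharZero F]

namespace Sl3

variable {M : Type} [AddCommGroup M] [Module F M] (R : Sl3 F M)

theorem sl1 : IsSl2 R.e1 R.f1 ((2 : F) • R.A - R.B) := by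
  refine ⟨fun v => ?_, fun v => ?_, fun v => ?_⟩
  · rw [R.e1f1]
    rfl
  · simp only [LinearMap.sub_apply, LinearMap.smul_apply, map_sub, map_smul, R.e1A, R.e1B]
    module
  · simp only [LinearMap.sub_apply, LinearMap.smul_apply, map_sub, map_smul, R.Af1, R.Bf1]
    module

theorem sl2 : IsSl2 R.e2 R.f2 ((2 : F) • R.B - R.A) := by
  refine ⟨fun v => ?_, fun v => ?_, fun v => ?_⟩
  · rw [R.e2f2]
    rfl
  · simp only [LinearMap.sub_apply, LinearMap.smul_apply, map_sub, map_smul, R.e2A, R.e2B]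
    module
  · simp only [LinearMap.sub_apply, LinearMap.smul_apply, map_sub, map_smul, R.Af2, R.Bf2]
    module

/-- the relations which hold in the adjoint module generated by a highest weight vector `v` -/
structure IsAdj (v : M) : Prop where
  e1 : R.e1 v = 0
  e2 : R.e2 v = 0
  A : R.A v = v
  B : R.B v = v
  f11 : R.f1 (R.f1 v) = 0
  f22 : R.f2 (R.f2 v) = 0

variable {R} {v : M} (H : R.IsAdj v)

include H

theorem IsAdj.e3 : R.e3 v = 0 := by
  have h4 : R.e3 v = R.e1 (R.e2 v) - R.e2 (R.e1 v) := by rw [R.e2e1]; abel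
  rw [h4, H.e1, H.e2, map_zero, map_zero, sub_zero]

theorem IsAdj.r1 : R.f2 (R.f2 (R.f1 v)) = (2 : F) • R.f3 (R.f2 v) := by
  have h : R.f1 (R.f2 (R.f2 v)) = 0 := by rw [H.f22, map_zero]
  simp only [R.f1f2, R.f1f3, R.f2f3, map_sub] at h
  linear_combination (norm := module) h

theorem IsAdj.r2 : R.f3 (R.f2 (R.f1 v)) = (2⁻¹ : F) • R.f3 (R.f3 v) := by
  have h := congrArg R.f1 H.r1
  simp only [R.f1f2, R.f1f3, R.f2f3, map_sub, map_zero, map_smul, H.f11, H.f22] at h
  linear_combination (norm := module) (-(4 : F)⁻¹) • h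

theorem IsAdj.r4 : R.f3 (R.f3 (R.f1 v)) = 0 := by
  have h := congrArg R.f1 H.r2
  simp only [R.f1f2, R.f1f3, R.f2f3, map_sub, map_zero, map_smul, H.f11, H.f22] at h
  linear_combination (norm := module) (-(2 / 3 : F)) • h

theorem IsAdj.r5 : R.f3 (R.f3 (R.f2 v)) = 0 := by
  have h := congrArg R.f2 H.r2
  simp only [R.f1f2, R.f1f3, R.f2f3, map_sub, map_zero, map_smul, H.f11, H.f22, H.r1] at h
  linear_combination (norm := module) ((2 / 3 : F)) • h

theorem IsAdj.r6 : R.f3 (R.f3 (R.f3 v)) = 0 := by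
  have h := congrArg R.f2 H.r4
  simp only [R.f2f3, map_zero, map_smul, H.r2] at h
  linear_combination (norm := module) ((2 : F)) • h

end Sl3

variable {L : Type} [LieRing L] [LieAlgebra F L] {I : Type} [LinearOrder I]

namespace Dat3

variable (X : Dat3 F L I)

theorem V_Zk {k : ℕ} {n a b : ℤ} {v : ExteriorAlgebra F L} (h : v ∈ X.V k n a b)
    (hd : d v = 0) : v ∈ Zk F L k := ⟨W_le X.b X.D X.hc k _ h, hd⟩

theorem V_f1_pow {k : ℕ} {n a b : ℤ} {ω : ExteriorAlgebra F L} (h : ω ∈ X.V k n a b) (m : ℕ) :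
    (Th X.R.f1 ^ m) ω ∈ X.V k n (a - m) b := by
  induction m with
  | zero => simpa using h
  | succ m ih =>
    rw [pow_succ', Module.End.mul_apply]
    have := X.V_f1 ih
    rw [sub_sub] at this
    convert this using 2
    push_cast
    ring

theorem V_f2_pow {k : ℕ} {n a b : ℤ} {ω : ExteriorAlgebra F L} (h : ω ∈ X.V k n a b) (m : ℕ) :
    (Th X.R.f2 ^ m) ω ∈ X.V k n a (b - m) := by
  induction m with
  | zero => simpa using h
  | succ m ih =>
    rw [pow_succ', Module.End.mul_apply]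
    have := X.V_f2 ih
    rw [sub_sub] at this
    convert this using 2
    push_cast
    ring

theorem f1_nil {k : ℕ} {n a b : ℤ} {ω : ExteriorAlgebra F L} (h : ω ∈ X.V k n a b) :
    ∃ m : ℕ, (Th X.R.f1 ^ m) ω = 0 := by
  refine ⟨(n + a + 1).toNat, ?_⟩
  have h1 := X.V_f1_pow h (n + a + 1).toNat
  rw [X.V_bot, Submodule.mem_bot] at h1
  · exact h1
  · intro s _ h2 h3 _
    have h4 := X.le_wa s
    omega

theorem f2_nil {k : ℕ} {n a b : ℤ} {ω : ExteriorAlgebra F L} (h : ω ∈ X.V k n a b) :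
    ∃ m : ℕ, (Th X.R.f2 ^ m) ω = 0 := by
  refine ⟨(n + b + 1).toNat, ?_⟩
  have h1 := X.V_f2_pow h (n + b + 1).toNat
  rw [X.V_bot, Submodule.mem_bot] at h1
  · exact h1
  · intro s _ h2 _ h3
    have h4 := X.le_wb s
    omega

theorem hyp_zero {k : ℕ} (hno : ∀ v ∈ Zk F L k, Th X.R.e1 v = 0 → Th X.R.e2 v = 0 →
    Th X.R.f1 v = 0 → Th X.R.f2 v = 0 → v ∈ Bk F L k) (n : ℤ) :
    ∀ v ∈ X.V k n 0 0, Th X.R.e1 v = 0 → Th X.R.e2 v = 0 → d v = 0 → v ∈ Bk F L k := by
  intro v hv he1 he2 hd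
  have hA : X.R.ext.A v = 0 := by
    have := ((X.mem_V).1 hv).2.2.1
    rw [Int.cast_zero, zero_smul] at this
    exact this
  have hB : X.R.ext.B v = 0 := by
    have := ((X.mem_V).1 hv).2.2.2
    rw [Int.cast_zero, zero_smul] at this
    exact this
  obtain ⟨m, hm⟩ := X.f1_nil (X.V_f1 hv)
  obtain ⟨m', hm'⟩ := X.f2_nil (X.V_f2 hv)
  refine hno v (X.V_Zk hv hd) he1 he2 ?_ ?_
  · exact f_zero X.R.ext.sl1 (by
      rw [LinearMap.sub_apply, LinearMap.smul_apply, hA, hB, smul_zero, sub_zero]) he1 hm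
  · exact f_zero X.R.ext.sl2 (by
      rw [LinearMap.sub_apply, LinearMap.smul_apply, hA, hB, smul_zero, sub_zero]) he2 hm'

theorem hyp_adj {k : ℕ} (hno : ∀ v ∈ Zk F L k, X.R.ext.IsAdj v → v ∈ Bk F L k) (n : ℤ) :
    ∀ v ∈ X.V k n 1 1, Th X.R.e1 v = 0 → Th X.R.e2 v = 0 → d v = 0 → v ∈ Bk F L k := by
  intro v hv he1 he2 hd
  have hA : X.R.ext.A v = v := by
    have := ((X.mem_V).1 hv).2.2.1
    rw [Int.cast_one, one_smul] at this
    exact this
  have hB : X.R.ext.B v = v := by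
    have := ((X.mem_V).1 hv).2.2.2
    rw [Int.cast_one, one_smul] at this
    exact this
  obtain ⟨m, hm⟩ := X.f1_nil (X.V_f1 (X.V_f1 hv))
  obtain ⟨m', hm'⟩ := X.f2_nil (X.V_f2 (X.V_f2 hv))
  have he1' : X.R.ext.e1 v = 0 := he1
  have he2' : X.R.ext.e2 v = 0 := he2
  have h11 : ((2 : F) • X.R.ext.A - X.R.ext.B) v = (1 : F) • v := by
    rw [LinearMap.sub_apply, LinearMap.smul_apply, hA, hB]
    module
  have h22 : ((2 : F) • X.R.ext.B - X.R.ext.A) v = (1 : F) • v := by
    rw [LinearMap.sub_apply, LinearMap.smul_apply, hA, hB]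
    module
  have p1 := e_f_pow X.R.ext.sl1 h11 he1' 2
  have p1' := e_f_pow X.R.ext.sl1 h11 he1' 1
  have p2 := e_f_pow X.R.ext.sl2 h22 he2' 2
  have p2' := e_f_pow X.R.ext.sl2 h22 he2' 1
  refine hno v (X.V_Zk hv hd) ⟨he1, he2, hA, hB, ?_, ?_⟩
  · refine e_inj X.R.ext.sl1 (j := 3) (by norm_num) ?_ ?_ hm
    · have := p1.1
      rw [pow_two, Module.End.mul_apply] at this
      rw [this]
      congr 1
      push_cast
      ring
    · have := p1'.2
      rw [show (1 + 1 : ℕ) = 2 from rfl, pow_two, Module.End.mul_apply] at this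
      rw [this]
      push_cast
      module
  · refine e_inj X.R.ext.sl2 (j := 3) (by norm_num) ?_ ?_ hm'
    · have := p2.1
      rw [pow_two, Module.End.mul_apply] at this
      rw [this]
      congr 1
      push_cast
      ring
    · have := p2'.2
      rw [show (1 + 1 : ℕ) = 2 from rfl, pow_two, Module.End.mul_apply] at this
      rw [this]
      push_cast
      module

/-- the first homology vanishes in degree `n` if the basis elements of degree `n` are sums of
brackets -/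
theorem hyp_one {n : ℤ} (hn : ∀ j, X.deg j = n →
    X.b j ∈ Submodule.span F {x : L | ∃ y z : L, x = ⁅y, z⁆}) (a b : ℤ) :
    ∀ v ∈ X.V 1 n a b, v ∈ Bk F L 1 := by
  intro v hv
  have h1 : v ∈ W X.D 1 ![n, a, b] := hv
  rw [W_eq_span X.b X.D X.hc] at h1
  refine Submodule.span_le.2 ?_ h1
  rintro _ ⟨⟨s, hs1, hs2⟩, rfl⟩
  obtain ⟨j, rfl⟩ := Finset.card_eq_one.1 hs1
  rw [gs_eq, Finset.sum_singleton] at hs2
  have h2 : X.b.ExteriorAlgebra {j} = ι F (X.b j) := by
    rw [basis_eq]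
    have h3 : ∀ i, ({j} : Finset I).orderEmbOfFin rfl i = j := fun i =>
      Finset.mem_singleton.1 (Finset.orderEmbOfFin_mem _ rfl i)
    simp only [h3]
    rw [ιMulti_apply]
    simp
  simp only
  rw [SetLike.mem_coe, h2]
  exact Dat.ι_mem_Bk (hn j hs2.1)

end Dat3

end Pool.Agent.U691.CE3
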